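import Mathlib
import Pool.Agent.Helper793.Unitary.Main

namespace Pool.Helper793.PsiOne

open Finset Pool.Helper793.Unitary

/-- Boolean test used for the exchange argument -/
def isL (cs : List (ℕ × Bool)) (v : ℕ) : Bool :=
  Nat.ble 3 v &&
  (([2, 3, 5, 7, 11, 13, 17, 19, 23, 29, 31, 37, 41, 43, 47, 53, 59, 61].all fun d =>
    !(Nat.beq (v % d) 0) || Nat.beq v d) &&
  (cs.all fun c => if c.2 then !(Nat.beq (v % c.1) (c.1 - 1)) else !(Nat.beq v c.1)))

def goodL (cs : List (ℕ × Bool)) (v : ℕ) : Prop := isL cs v = true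

instance (cs : List (ℕ × Bool)) : DecidablePred (goodL cs) :=
  fun v => inferInstanceAs (Decidable (isL cs v = true))

lemma isL_of {cs : List (ℕ × Bool)} {v : ℕ} (hp : v.Prime) (h3 : 3 ≤ v)
    (h1 : ∀ c ∈ cs, c.2 = true → v % c.1 ≠ c.1 - 1) (h2 : ∀ c ∈ cs, c.2 = false → v ≠ c.1) :
    isL cs v = true := by
  unfold isL
  rw [Bool.and_eq_true, Bool.and_eq_true, List.all_eq_true, List.all_eq_true]
  refine ⟨Nat.ble_eq_true_of_le h3, ?_, ?_⟩
  · intro d hd
    rw [Bool.or_eq_true]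
    by_cases h : v % d = 0
    · right
      have hd2 : d ≠ 1 := by
        rintro rfl
        simp at hd
      have := (Nat.dvd_prime hp).1 (Nat.dvd_of_mod_eq_zero h)
      rcases this with h1 | h1
      · exact absurd h1 hd2
      · simp [h1]
    · left
      rw [Bool.not_eq_true']
      apply Bool.eq_false_iff.2
      intro hh
      exact h (Nat.eq_of_beq_eq_true hh)
  · intro c hc
    by_cases hb : c.2 = true
    · rw [if_pos hb, Bool.not_eq_true']
      apply Bool.eq_false_iff.2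
      intro hh
      exact h1 c hc hb (Nat.eq_of_beq_eq_true hh)
    · rw [if_neg hb, Bool.not_eq_true']
      apply Bool.eq_false_iff.2
      intro hh
      exact h2 c hc (by simpa using hb) (Nat.eq_of_beq_eq_true hh)

lemma goodL_pos (cs : List (ℕ × Bool)) (v : ℕ) (h : goodL cs v) : 0 < v := by
  unfold goodL isL at h
  rw [Bool.and_eq_true] at h
  have := Nat.le_of_ble_eq_true h.1
  omega

lemma prod_filter_eq' (g : ℕ → Bool) (f : ℕ → ℕ) (N : ℕ) (hN : N ≤ 2 ^ 13)
    (good : ℕ → Prop) [DecidablePred good] (hg : ∀ v, good v ↔ g v = true) :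
    ∏ v ∈ (Finset.range N).filter good, f v = bp g f 14 0 N := by
  rw [bp_eq g f 13 0 N hN, Finset.prod_filter, zero_add, ← Finset.range_eq_Ico]
  apply Finset.prod_congr rfl
  intro v _
  by_cases h : good v
  · rw [if_pos h, if_pos ((hg v).1 h)]
  · rw [if_neg h, if_neg (fun hh => h ((hg v).2 hh))]

lemma leafGen (cs : List (ℕ × Bool)) (M : ℕ) (hM : 0 < M) (hMb : M + 1 ≤ 2 ^ 13)
    (hcard : bp (isL cs) (fun _ => 2) 14 0 (M + 1) = 2 ^ 494)
    (hprod : bp (isL cs) (fun v => v + 1) 14 0 (M + 1) ≤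
      3 * bp (isL cs) (fun v => v) 14 0 (M + 1))
    (hbig : 10 ^ 1512 ≤ bp (isL cs) (fun v => v) 14 0 (M + 1))
    (T : Finset ℕ) (hT : ∀ v ∈ T, isL cs v = true)
    (hgt : 3 < ∏ v ∈ T, (1 + 1 / (v : ℝ))) : 495 ≤ T.card ∧ 10 ^ 1512 ≤ ∏ v ∈ T, v := by
  have hc : ((Finset.range (M + 1)).filter (goodL cs)).card = 494 := by
    have h1 := prod_filter_eq' (isL cs) (fun _ => 2) (M + 1) hMb (goodL cs) (fun _ => Iff.rfl)
    rw [hcard, Finset.prod_const] at h1
    exact Nat.pow_right_injective le_rfl h1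
  rw [← prod_filter_eq' (isL cs) (fun v => v + 1) (M + 1) hMb (goodL cs) (fun _ => Iff.rfl),
    ← prod_filter_eq' (isL cs) (fun v => v) (M + 1) hMb (goodL cs) (fun _ => Iff.rfl)] at hprod
  rw [← prod_filter_eq' (isL cs) (fun v => v) (M + 1) hMb (goodL cs) (fun _ => Iff.rfl)] at hbig
  have hT' : ∀ v ∈ T, goodL cs v := hT
  have hcard2 : 495 ≤ T.card := by
    by_contra hcon
    push Not at hcon
    have e1 := exch (goodL cs) (goodL_pos cs) M hM T hT' (by rw [hc]; omega)
    have hpos : ∀ v ∈ (Finset.range (M + 1)).filter (goodL cs), (0 : ℝ) < v := by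
      intro v hv
      have := goodL_pos cs v (Finset.mem_filter.1 hv).2
      exact_mod_cast this
    have e2 : ∏ v ∈ (Finset.range (M + 1)).filter (goodL cs), (1 + 1 / (v : ℝ)) ≤ 3 := by
      have h1 : ∏ v ∈ (Finset.range (M + 1)).filter (goodL cs), (1 + 1 / (v : ℝ)) =
          (∏ v ∈ (Finset.range (M + 1)).filter (goodL cs), ((v : ℝ) + 1)) /
          ∏ v ∈ (Finset.range (M + 1)).filter (goodL cs), (v : ℝ) := by
        rw [← Finset.prod_div_distrib]
        apply Finset.prod_congr rfl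
        intro v hv
        have := hpos v hv
        field_simp
      rw [h1, div_le_iff₀ (Finset.prod_pos hpos)]
      have h2 := (Nat.cast_le (α := ℝ)).2 hprod
      rw [Nat.cast_mul, Nat.cast_prod, Nat.cast_prod] at h2
      have h4 : ∏ v ∈ (Finset.range (M + 1)).filter (goodL cs), (((v + 1 : ℕ)) : ℝ) =
          ∏ v ∈ (Finset.range (M + 1)).filter (goodL cs), ((v : ℝ) + 1) := by
        apply Finset.prod_congr rfl
        intro v _
        push_cast
        rfl
      rw [h4] at h2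
      have h5 : ((3 : ℕ) : ℝ) = 3 := by norm_num
      rw [h5] at h2
      exact h2
    exact absurd hgt (not_lt.2 (e1.trans e2))
  refine ⟨hcard2, ?_⟩
  exact hbig.trans (exch' (goodL cs) M hM T hT' (by rw [hc]; omega))

lemma leaf0 (T : Finset ℕ) (hT : ∀ v ∈ T, isL [(3, true)] v = true)
    (hgt : 3 < ∏ v ∈ T, (1 + 1 / (v : ℝ))) : 495 ≤ T.card ∧ 10 ^ 1512 ≤ ∏ v ∈ T, v :=
  leafGen [(3, true)] 7603 (by norm_num) (by norm_num) (by decide +kernel) (by decide +kernel)
    (by decide +kernel) T hT hgt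

lemma leaf1 (T : Finset ℕ) (hT : ∀ v ∈ T, isL [(3, false), (5, true), (7, true), (11, true)] v = true)
    (hgt : 3 < ∏ v ∈ T, (1 + 1 / (v : ℝ))) : 495 ≤ T.card ∧ 10 ^ 1512 ≤ ∏ v ∈ T, v :=
  leafGen [(3, false), (5, true), (7, true), (11, true)] 6521 (by norm_num) (by norm_num) (by decide +kernel) (by decide +kernel)
    (by decide +kernel) T hT hgt

lemma leaf2 (T : Finset ℕ) (hT : ∀ v ∈ T, isL [(3, false), (5, true), (7, true), (11, false)] v = true)
    (hgt : 3 < ∏ v ∈ T, (1 + 1 / (v : ℝ))) : 495 ≤ T.card ∧ 10 ^ 1512 ≤ ∏ v ∈ T, v :=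
  leafGen [(3, false), (5, true), (7, true), (11, false)] 5897 (by norm_num) (by norm_num) (by decide +kernel) (by decide +kernel)
    (by decide +kernel) T hT hgt

lemma leaf3 (T : Finset ℕ) (hT : ∀ v ∈ T, isL [(3, false), (5, true), (7, false), (11, true)] v = true)
    (hgt : 3 < ∏ v ∈ T, (1 + 1 / (v : ℝ))) : 495 ≤ T.card ∧ 10 ^ 1512 ≤ ∏ v ∈ T, v :=
  leafGen [(3, false), (5, true), (7, false), (11, true)] 5441 (by norm_num) (by norm_num) (by decide +kernel) (by decide +kernel)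
    (by decide +kernel) T hT hgt

lemma leaf4 (T : Finset ℕ) (hT : ∀ v ∈ T, isL [(3, false), (5, true), (7, false), (11, false)] v = true)
    (hgt : 3 < ∏ v ∈ T, (1 + 1 / (v : ℝ))) : 495 ≤ T.card ∧ 10 ^ 1512 ≤ ∏ v ∈ T, v :=
  leafGen [(3, false), (5, true), (7, false), (11, false)] 4903 (by norm_num) (by norm_num) (by decide +kernel) (by decide +kernel)
    (by decide +kernel) T hT hgt

lemma leaf5 (T : Finset ℕ) (hT : ∀ v ∈ T, isL [(3, false), (5, false), (7, true), (11, true)] v = true)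
    (hgt : 3 < ∏ v ∈ T, (1 + 1 / (v : ℝ))) : 495 ≤ T.card ∧ 10 ^ 1512 ≤ ∏ v ∈ T, v :=
  leafGen [(3, false), (5, false), (7, true), (11, true)] 4937 (by norm_num) (by norm_num) (by decide +kernel) (by decide +kernel)
    (by decide +kernel) T hT hgt

lemma leaf6 (T : Finset ℕ) (hT : ∀ v ∈ T, isL [(3, false), (5, false), (7, true), (11, false)] v = true)
    (hgt : 3 < ∏ v ∈ T, (1 + 1 / (v : ℝ))) : 495 ≤ T.card ∧ 10 ^ 1512 ≤ ∏ v ∈ T, v :=
  leafGen [(3, false), (5, false), (7, true), (11, false)] 4397 (by norm_num) (by norm_num) (by decide +kernel) (by decide +kernel)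
    (by decide +kernel) T hT hgt

lemma leaf7 (T : Finset ℕ) (hT : ∀ v ∈ T, isL [(3, false), (5, false), (7, false), (11, true)] v = true)
    (hgt : 3 < ∏ v ∈ T, (1 + 1 / (v : ℝ))) : 495 ≤ T.card ∧ 10 ^ 1512 ≤ ∏ v ∈ T, v :=
  leafGen [(3, false), (5, false), (7, false), (11, true)] 4001 (by norm_num) (by norm_num) (by decide +kernel) (by decide +kernel)
    (by decide +kernel) T hT hgt

lemma leaf8 (T : Finset ℕ) (hT : ∀ v ∈ T, isL [(3, false), (5, false), (7, false), (11, false)] v = true)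
    (hgt : 3 < ∏ v ∈ T, (1 + 1 / (v : ℝ))) : 495 ≤ T.card ∧ 10 ^ 1512 ≤ ∏ v ∈ T, v :=
  leafGen [(3, false), (5, false), (7, false), (11, false)] 3559 (by norm_num) (by norm_num) (by decide +kernel) (by decide +kernel)
    (by decide +kernel) T hT hgt

end Pool.Helper793.PsiOne
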