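import Mathlib
import Pool.Agent.Helper793.PsiOne.Num

namespace Pool.Helper793.PsiOne

open Finset Pool.Helper793.Unitary

/-- Dedekind's function -/
def psi (n : ℕ) : ℕ := (n / ∏ p ∈ n.primeFactors, p) * (∏ p ∈ n.primeFactors, (p + 1))

lemma not_dvd_psi {n : ℕ} (h : psi n ≡ 1 [MOD n]) {q : ℕ} (hq : q.Prime) (hqn : q ∣ n) :
    ¬ q ∣ psi n := by
  intro hd
  have h1 : psi n ≡ 1 [MOD q] := h.of_dvd hqn
  have h2 : psi n ≡ 0 [MOD q] := (Nat.modEq_zero_iff_dvd).2 hd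
  have h3 : 1 ≡ 0 [MOD q] := h1.symm.trans h2
  have h4 := (Nat.modEq_zero_iff_dvd).1 h3
  exact hq.one_lt.ne' (Nat.dvd_one.1 h4)

lemma eq_rad {n : ℕ} (hn : 1 < n) (h : psi n ≡ 1 [MOD n]) : n = ∏ p ∈ n.primeFactors, p := by
  have hR : (∏ p ∈ n.primeFactors, p) ∣ n := Nat.prod_primeFactors_dvd n
  have h1 : n / (∏ p ∈ n.primeFactors, p) = 1 := by
    by_contra hne
    obtain ⟨q, hq, hqd⟩ := Nat.exists_prime_and_dvd hne
    have hqn : q ∣ n := hqd.trans (Nat.div_dvd_of_dvd hR)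
    exact not_dvd_psi h hq hqn (Dvd.dvd.mul_right hqd _)
  have h2 := Nat.div_mul_cancel hR
  rw [h1, one_mul] at h2
  exact h2.symm

lemma psi_eq {n : ℕ} (hn : 1 < n) (h : psi n ≡ 1 [MOD n]) :
    psi n = ∏ p ∈ n.primeFactors, (p + 1) := by
  have h1 := eq_rad hn h
  have h2 : n / (∏ p ∈ n.primeFactors, p) = 1 := by
    rw [← h1]
    exact Nat.div_self (by omega)
  unfold psi
  rw [h2, one_mul]

lemma no_minus {n : ℕ} (hn : 1 < n) (h : psi n ≡ 1 [MOD n]) {p q : ℕ} (hp : p.Prime)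
    (hpn : p ∣ n) (hq : q.Prime) (hqn : q ∣ n) : ¬ q ∣ p + 1 := by
  intro hd
  apply not_dvd_psi h hq hqn
  rw [psi_eq hn h]
  exact hd.trans (Finset.dvd_prod_of_mem _ (Nat.mem_primeFactors.2 ⟨hp, hpn, by omega⟩))

lemma exists_two {n : ℕ} (hn : 1 < n) (hnp : ¬ n.Prime) (h : psi n ≡ 1 [MOD n]) (p : ℕ)
    (hp : p ∈ n.primeFactors) : ∃ q ∈ n.primeFactors, q ≠ p := by
  by_contra hcon
  push Not at hcon
  have h1 : n.primeFactors = {p} := by
    ext q
    rw [Finset.mem_singleton]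
    constructor
    · intro hq; exact hcon q hq
    · rintro rfl; exact hp
  have h2 := eq_rad hn h
  rw [h1, Finset.prod_singleton] at h2
  rw [h2] at hnp
  exact hnp (Nat.prime_of_mem_primeFactors hp)

lemma odd_n {n : ℕ} (hn : 1 < n) (hnp : ¬ n.Prime) (h : psi n ≡ 1 [MOD n]) : Odd n := by
  by_contra hcon
  rw [Nat.not_odd_iff_even] at hcon
  have h2 : 2 ∣ n := hcon.two_dvd
  obtain ⟨q, hq, hq2⟩ := exists_two hn hnp h 2 (Nat.mem_primeFactors.2 ⟨Nat.prime_two, h2, by omega⟩)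
  have hqp := Nat.prime_of_mem_primeFactors hq
  have hqodd : Odd q := hqp.odd_of_ne_two hq2
  exact no_minus hn h hqp (Nat.mem_primeFactors.1 hq).2.1 Nat.prime_two h2
    (hqodd.add_one).two_dvd

lemma prod_succ_gt {S : Finset ℕ} (hS : S.Nonempty) (hpos : ∀ p ∈ S, 0 < p) :
    (∏ p ∈ S, p) + 1 ≤ ∏ p ∈ S, (p + 1) := by
  apply Nat.succ_le_of_lt
  apply Finset.prod_lt_prod_of_nonempty
  · intro p hp; exact hpos p hp
  · intro p _; omega
  · exact hS

lemma three_le {n : ℕ} (hn : 1 < n) (hnp : ¬ n.Prime) (h : psi n ≡ 1 [MOD n]) :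
    3 * n + 1 ≤ psi n := by
  have hodd := odd_n hn hnp h
  have hrad := eq_rad hn h
  have hpsi := psi_eq hn h
  have hpos : ∀ p ∈ n.primeFactors, 0 < p := fun p hp => (Nat.prime_of_mem_primeFactors hp).pos
  obtain ⟨p, hpp, hpn⟩ := Nat.exists_prime_and_dvd (show n ≠ 1 by omega)
  have hpS : p ∈ n.primeFactors := Nat.mem_primeFactors.2 ⟨hpp, hpn, by omega⟩
  obtain ⟨q, hqS, hqp⟩ := exists_two hn hnp h p hpS
  -- psi n > n + 1
  have h1 : n + 2 ≤ psi n := by
    rw [hpsi, ← Finset.mul_prod_erase _ _ hpS]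
    have h2 : (∏ x ∈ n.primeFactors.erase p, x) + 1 ≤ ∏ x ∈ n.primeFactors.erase p, (x + 1) :=
      prod_succ_gt ⟨q, Finset.mem_erase.2 ⟨hqp, hqS⟩⟩
        (fun x hx => hpos x (Finset.mem_of_mem_erase hx))
    have h3 : n = p * ∏ x ∈ n.primeFactors.erase p, x := by
      rw [Finset.mul_prod_erase _ (fun x => x) hpS]
      exact hrad
    have h4 : 0 < ∏ x ∈ n.primeFactors.erase p, x :=
      Finset.prod_pos (fun x hx => hpos x (Finset.mem_of_mem_erase hx))
    set m := ∏ x ∈ n.primeFactors.erase p, x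
    set m' := ∏ x ∈ n.primeFactors.erase p, (x + 1)
    have hp2 := hpp.two_le
    calc n + 2 ≤ p * m + p + m + 1 := by omega
      _ = (p + 1) * (m + 1) := by ring
      _ ≤ (p + 1) * m' := Nat.mul_le_mul_left _ h2
  -- psi n even
  have h5 : 2 ∣ psi n := by
    rw [hpsi]
    have hpodd : Odd p := hodd.of_dvd_nat hpn
    exact (hpodd.add_one).two_dvd.trans (Finset.dvd_prod_of_mem (fun x => x + 1) hpS)
  -- n ∣ psi n - 1
  have h6 : n ∣ psi n - 1 := (Nat.modEq_iff_dvd' (by omega)).1 h.symm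
  obtain ⟨k, hk⟩ := h6
  have h7 : psi n = n * k + 1 := by omega
  have hk0 : k ≠ 0 := by rintro rfl; omega
  have hk1 : k ≠ 1 := by rintro rfl; omega
  have hk2 : k ≠ 2 := by
    rintro rfl
    rw [h7] at h5
    omega
  have hk3 : 3 ≤ k := by omega
  have := Nat.mul_le_mul_left n hk3
  omega

lemma prod_gt3 {n : ℕ} (hn : 1 < n) (hnp : ¬ n.Prime) (h : psi n ≡ 1 [MOD n]) :
    3 < ∏ p ∈ n.primeFactors, (1 + 1 / (p : ℝ)) := by
  have h1 := three_le hn hnp h
  rw [psi_eq hn h] at h1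
  have hrad := eq_rad hn h
  have hpos : ∀ p ∈ n.primeFactors, (0 : ℝ) < p := fun p hp => by
    exact_mod_cast (Nat.prime_of_mem_primeFactors hp).pos
  have h2 : ∏ p ∈ n.primeFactors, (1 + 1 / (p : ℝ)) =
      (∏ p ∈ n.primeFactors, ((p : ℝ) + 1)) / ∏ p ∈ n.primeFactors, (p : ℝ) := by
    rw [← Finset.prod_div_distrib]
    apply Finset.prod_congr rfl
    intro v hv
    have := hpos v hv
    field_simp
  have h3 : ((∏ p ∈ n.primeFactors, p : ℕ) : ℝ) = n := by rw [← hrad]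
  rw [Nat.cast_prod] at h3
  have hn0 : (0 : ℝ) < n := by exact_mod_cast (by omega : 0 < n)
  rw [h2, h3, lt_div_iff₀ hn0]
  have h4 : ((3 * n + 1 : ℕ) : ℝ) ≤ ((∏ p ∈ n.primeFactors, (p + 1) : ℕ) : ℝ) := by
    exact_mod_cast h1
  push_cast at h4
  linarith

lemma isL_n {n : ℕ} (hn : 1 < n) (hnp : ¬ n.Prime) (h : psi n ≡ 1 [MOD n])
    (cs : List (ℕ × Bool))
    (h1 : ∀ c ∈ cs, c.2 = true → c.1 ∣ n ∧ c.1.Prime)
    (h2 : ∀ c ∈ cs, c.2 = false → ¬ c.1 ∣ n) :
    ∀ v ∈ n.primeFactors, isL cs v = true := by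
  intro v hv
  have hvp := Nat.prime_of_mem_primeFactors hv
  have hvn := (Nat.mem_primeFactors.1 hv).2.1
  have hodd := odd_n hn hnp h
  have hvodd : Odd v := hodd.of_dvd_nat hvn
  have hv3 : 3 ≤ v := by
    have := hvp.two_le
    rcases hvodd with ⟨t, ht⟩
    omega
  apply isL_of hvp hv3
  · intro c hc hb hmod
    obtain ⟨hcn, hcp⟩ := h1 c hc hb
    apply no_minus hn h hvp hvn hcp hcn
    have hc1 := hcp.one_lt
    apply Nat.dvd_of_mod_eq_zero
    rw [Nat.add_mod, hmod, Nat.mod_eq_of_lt hc1]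
    have : c.1 - 1 + 1 = c.1 := by omega
    rw [this, Nat.mod_self]
  · intro c hc hb hvc
    exact h2 c hc hb (hvc ▸ hvn)

lemma conds {n : ℕ} (h3 : ¬ 3 ∣ n) (a b c : Bool) (ha : a = true ↔ 5 ∣ n)
    (hb : b = true ↔ 7 ∣ n) (hc : c = true ↔ 11 ∣ n) :
    (∀ x ∈ [((3 : ℕ), false), (5, a), (7, b), (11, c)], x.2 = true → x.1 ∣ n ∧ x.1.Prime) ∧
    (∀ x ∈ [((3 : ℕ), false), (5, a), (7, b), (11, c)], x.2 = false → ¬ x.1 ∣ n) := by
  have p5 : Nat.Prime 5 := by norm_num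
  have p7 : Nat.Prime 7 := by norm_num
  have p11 : Nat.Prime 11 := by norm_num
  constructor
  · intro x hx hx2
    simp only [List.mem_cons, List.not_mem_nil, or_false] at hx
    rcases hx with rfl | rfl | rfl | rfl
    · exact absurd hx2 (by simp)
    · exact ⟨ha.1 hx2, p5⟩
    · exact ⟨hb.1 hx2, p7⟩
    · exact ⟨hc.1 hx2, p11⟩
  · intro x hx hx2
    simp only [List.mem_cons, List.not_mem_nil, or_false] at hx
    rcases hx with rfl | rfl | rfl | rfl
    · exact h3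
    · intro h
      have := ha.2 h
      simp only at hx2
      rw [hx2] at this
      exact absurd this (by simp)
    · intro h
      have := hb.2 h
      simp only at hx2
      rw [hx2] at this
      exact absurd this (by simp)
    · intro h
      have := hc.2 h
      simp only at hx2
      rw [hx2] at this
      exact absurd this (by simp)

lemma cond3 {n : ℕ} (h3 : 3 ∣ n) :
    (∀ x ∈ [((3 : ℕ), true)], x.2 = true → x.1 ∣ n ∧ x.1.Prime) ∧
    (∀ x ∈ [((3 : ℕ), true)], x.2 = false → ¬ x.1 ∣ n) := by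
  constructor
  · intro x hx hx2
    simp only [List.mem_cons, List.not_mem_nil, or_false] at hx
    subst hx
    exact ⟨h3, Nat.prime_three⟩
  · intro x hx hx2
    simp only [List.mem_cons, List.not_mem_nil, or_false] at hx
    subst hx
    exact absurd hx2 (by simp)

lemma tt {P : Prop} (h : P) : true = true ↔ P := ⟨fun _ => h, fun _ => rfl⟩
lemma ff {P : Prop} (h : ¬ P) : false = true ↔ P := ⟨fun hh => absurd hh (by simp), fun hh => absurd hh h⟩

theorem main {n : ℕ} (hn : 1 < n) (hnp : ¬ n.Prime) (h : psi n ≡ 1 [MOD n]) :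
    495 ≤ n.primeFactors.card ∧ 10 ^ 1512 ≤ n := by
  have hgt := prod_gt3 hn hnp h
  have hrad := eq_rad hn h
  suffices hs : 495 ≤ n.primeFactors.card ∧ 10 ^ 1512 ≤ ∏ p ∈ n.primeFactors, p by
    exact ⟨hs.1, hs.2.trans hrad.symm.le⟩
  have key := isL_n hn hnp h
  by_cases h3 : 3 ∣ n
  · exact leaf0 _ (key _ (cond3 h3).1 (cond3 h3).2) hgt
  · by_cases h5 : 5 ∣ n <;> by_cases h7 : 7 ∣ n <;> by_cases h11 : 11 ∣ n
    · have c := conds h3 true true true (tt h5) (tt h7) (tt h11)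
      exact leaf1 _ (key _ c.1 c.2) hgt
    · have c := conds h3 true true false (tt h5) (tt h7) (ff h11)
      exact leaf2 _ (key _ c.1 c.2) hgt
    · have c := conds h3 true false true (tt h5) (ff h7) (tt h11)
      exact leaf3 _ (key _ c.1 c.2) hgt
    · have c := conds h3 true false false (tt h5) (ff h7) (ff h11)
      exact leaf4 _ (key _ c.1 c.2) hgt
    · have c := conds h3 false true true (ff h5) (tt h7) (tt h11)
      exact leaf5 _ (key _ c.1 c.2) hgt
    · have c := conds h3 false true false (ff h5) (tt h7) (ff h11)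
      exact leaf6 _ (key _ c.1 c.2) hgt
    · have c := conds h3 false false true (ff h5) (ff h7) (tt h11)
      exact leaf7 _ (key _ c.1 c.2) hgt
    · have c := conds h3 false false false (ff h5) (ff h7) (ff h11)
      exact leaf8 _ (key _ c.1 c.2) hgt

end Pool.Helper793.PsiOne
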